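import Pool.Agent.MT100.Stmts

/-! MT100, module LTL (5.1): the logarithm is transcendental over germs of analytic functions. -/

set_option autoImplicit false

namespace Pool.Agent.MT100.H91

open Filter Topology Polynomial

/-- `u (log u)^m → 0` as `u → 0+` -/
theorem tendsto_mul_log_pow (m : ℕ) :
    Tendsto (fun u : ℝ => u * Real.log u ^ m) (𝓝[>] 0) (𝓝 0) := by
  have h1 : Tendsto (fun u : ℝ => -Real.log u) (𝓝[>] 0) atTop :=
    tendsto_neg_atBot_atTop.comp Real.tendsto_log_nhdsGT_zero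
  have h2 := (Real.tendsto_pow_mul_exp_neg_atTop_nhds_zero m).comp h1
  have h3 := h2.const_mul ((-1 : ℝ) ^ m)
  rw [mul_zero] at h3
  refine h3.congr' ?_
  filter_upwards [self_mem_nhdsWithin] with u hu
  have hu' : (0 : ℝ) < u := hu
  simp only [Function.comp_apply, neg_neg, Real.exp_log hu']
  rw [← mul_assoc, ← mul_pow, neg_one_mul, neg_neg, mul_comm]

/-- a polynomial in `log u` which tends to `0` as `u → 0+` is zero -/
theorem poly_zero (P : Polynomial ℝ)
    (h : Tendsto (fun u : ℝ => P.eval (Real.log u)) (𝓝[>] 0) (𝓝 0)) : P = 0 := by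
  have h1 : Tendsto (fun x : ℝ => Real.exp (-x)) atTop (𝓝[>] 0) := by
    rw [tendsto_nhdsWithin_iff]
    exact ⟨Real.tendsto_exp_neg_atTop_nhds_zero, Eventually.of_forall fun x => Real.exp_pos _⟩
  have h2 := h.comp h1
  have h3 : Tendsto (fun x : ℝ => (P.comp (-X)).eval x) atTop (𝓝 0) := by
    refine h2.congr fun x => ?_
    simp [Function.comp_apply, Real.log_exp, eval_comp]
  have h4 := (Polynomial.tendsto_nhds_iff (P.comp (-X))).1 h3
  have h5 : P.comp (-X) = 0 := leadingCoeff_eq_zero.1 h4.1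
  have h6 : (P.comp (-X)).comp (-X) = P := by
    rw [comp_assoc]
    simp
  rw [← h6, h5, zero_comp]

/-- the values at `0` of a relation vanish -/
theorem val_zero {M : ℕ} (G : Fin M → ℝ → ℝ) (hG : ∀ m, AnalyticAt ℝ (G m) 0)
    (h : ∀ᶠ u in 𝓝[>] (0 : ℝ), ∑ m, G m u * Real.log u ^ (m : ℕ) = 0) (m : Fin M) :
    G m 0 = 0 := by
  classical
  -- `G m u = G m 0 + u * q m u` near `0` with `q m` continuous at `0`
  have hq : ∀ m, ∃ q : ℝ → ℝ, ContinuousAt q 0 ∧ ∀ᶠ u in 𝓝 (0 : ℝ), G m u = G m 0 + u * q u := by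
    intro m
    have hd : AnalyticAt ℝ (fun u => G m u - G m 0) 0 := (hG m).sub analyticAt_const
    have ho : (1 : ℕ∞) ≤ analyticOrderAt (fun u => G m u - G m 0) 0 := by
      rw [Order.one_le_iff_ne_zero]
      exact hd.analyticOrderAt_ne_zero.2 (by simp)
    obtain ⟨g, hg, he⟩ := (natCast_le_analyticOrderAt hd (n := 1)).1 (by exact_mod_cast ho)
    refine ⟨g, hg.continuousAt, ?_⟩
    filter_upwards [he] with u hu
    simp only [sub_zero, pow_one, smul_eq_mul] at hu
    linarith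
  choose q hqc hqe using hq
  let P : Polynomial ℝ := ∑ m : Fin M, C (G m 0) * X ^ (m : ℕ)
  have hP : P = 0 := by
    apply poly_zero
    have h1 : Tendsto (fun u : ℝ => ∑ m : Fin M, -(q m u * (u * Real.log u ^ (m : ℕ))))
        (𝓝[>] 0) (𝓝 0) := by
      have h8 : Tendsto (fun u : ℝ => ∑ m : Fin M, -(q m u * (u * Real.log u ^ (m : ℕ))))
          (𝓝[>] 0) (𝓝 (∑ m : Fin M, -(q m 0 * 0))) := by
        refine tendsto_finsetSum _ fun m _ => ?_
        exact (((hqc m).tendsto.mono_left nhdsWithin_le_nhds).mul (tendsto_mul_log_pow m)).neg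
      have h9 : ∑ m : Fin M, -(q m 0 * 0) = 0 := by simp
      rwa [h9] at h8
    refine h1.congr' ?_
    have h2 : ∀ᶠ u in 𝓝[>] (0 : ℝ), ∀ m, G m u = G m 0 + u * q m u :=
      eventually_all.2 fun m => (hqe m).filter_mono nhdsWithin_le_nhds
    filter_upwards [h, h2] with u hu hu2
    have h3 : ∑ m : Fin M, (G m 0 + u * q m u) * Real.log u ^ (m : ℕ) = 0 := by
      refine Eq.trans ?_ hu
      exact Finset.sum_congr rfl fun m _ => by rw [← hu2 m]
    simp only [P, eval_finsetSum, eval_mul, eval_C, eval_pow, eval_X]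
    rw [Finset.sum_neg_distrib, neg_eq_iff_add_eq_zero, ← Finset.sum_add_distrib]
    refine Eq.trans ?_ h3
    exact Finset.sum_congr rfl fun m _ => by ring
  have h7 : P.coeff m = G m 0 := by
    simp only [P, finsetSum_coeff, coeff_C_mul, coeff_X_pow]
    rw [Finset.sum_eq_single m]
    · simp
    · intro b _ hb
      rw [if_neg (fun h => hb (Fin.ext h.symm)), mul_zero]
    · intro h; exact absurd (Finset.mem_univ _) h
  rw [← h7, hP, coeff_zero]

theorem order_ge {M : ℕ} (G : Fin M → ℝ → ℝ) (hG : ∀ m, AnalyticAt ℝ (G m) 0)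
    (h : ∀ᶠ u in 𝓝[>] (0 : ℝ), ∑ m, G m u * Real.log u ^ (m : ℕ) = 0) (n : ℕ) (m : Fin M) :
    (n : ℕ∞) ≤ analyticOrderAt (G m) 0 := by
  induction n generalizing m with
  | zero => simp
  | succ n ih =>
    have hg : ∀ m, ∃ g : ℝ → ℝ, AnalyticAt ℝ g 0 ∧ ∀ᶠ z in 𝓝 (0 : ℝ), G m z = z ^ n * g z := by
      intro m
      obtain ⟨g, h1, h2⟩ := (natCast_le_analyticOrderAt (hG m)).1 (ih m)
      refine ⟨g, h1, ?_⟩
      filter_upwards [h2] with z hz
      simpa using hz
    choose g hga hge using hg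
    have hrel : ∀ᶠ u in 𝓝[>] (0 : ℝ), ∑ m, g m u * Real.log u ^ (m : ℕ) = 0 := by
      have h2 : ∀ᶠ u in 𝓝[>] (0 : ℝ), ∀ m, G m u = u ^ n * g m u :=
        eventually_all.2 fun m => (hge m).filter_mono nhdsWithin_le_nhds
      filter_upwards [h, h2, self_mem_nhdsWithin] with u hu hu2 hu3
      have hu3' : (0 : ℝ) < u := hu3
      have : u ^ n * ∑ m, g m u * Real.log u ^ (m : ℕ) = 0 := by
        rw [Finset.mul_sum]
        refine Eq.trans ?_ hu
        exact Finset.sum_congr rfl fun m _ => by rw [hu2 m]; ring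
      exact (mul_eq_zero.1 this).resolve_left (pow_ne_zero _ hu3'.ne')
    have h0 : g m 0 = 0 := val_zero g hga hrel m
    have ho : (1 : ℕ∞) ≤ analyticOrderAt (g m) 0 := by
      rw [Order.one_le_iff_ne_zero]
      exact (hga m).analyticOrderAt_ne_zero.2 h0
    obtain ⟨g', hg', he⟩ := (natCast_le_analyticOrderAt (hga m) (n := 1)).1 (by exact_mod_cast ho)
    refine (natCast_le_analyticOrderAt (hG m)).2 ⟨g', hg', ?_⟩
    filter_upwards [he, hge m] with z hz hz2
    simp only [sub_zero, pow_one, smul_eq_mul] at hz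
    rw [hz2, hz]
    simp only [sub_zero, smul_eq_mul]
    ring

theorem ltl : LtlStmt := by
  intro M f hf h
  choose k g hga hge using hf
  let K : ℕ := ∑ m, k m
  have hK : ∀ m, k m ≤ K := fun m => Finset.single_le_sum (fun _ _ => Nat.zero_le _)
    (Finset.mem_univ m)
  let G : Fin M → ℝ → ℝ := fun m u => u ^ (K - k m) * g m u
  have hG : ∀ m, AnalyticAt ℝ (G m) 0 := fun m => (analyticAt_id.pow _).mul (hga m)
  have hfG : ∀ m, ∀ᶠ u in 𝓝[>] (0 : ℝ), u ^ K * f m u = G m u := by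
    intro m
    filter_upwards [hge m] with u hu
    simp only [G]
    rw [← hu, ← mul_assoc, ← pow_add, Nat.sub_add_cancel (hK m)]
  have hrel : ∀ᶠ u in 𝓝[>] (0 : ℝ), ∑ m, G m u * Real.log u ^ (m : ℕ) = 0 := by
    filter_upwards [h, eventually_all.2 hfG] with u hu hu2
    have : ∑ m, G m u * Real.log u ^ (m : ℕ) = u ^ K * ∑ m, f m u * Real.log u ^ (m : ℕ) := by
      rw [Finset.mul_sum]
      exact Finset.sum_congr rfl fun m _ => by rw [← hu2 m]; ring
    rw [this, hu, mul_zero]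
  intro m
  have htop : analyticOrderAt (G m) 0 = ⊤ := by
    by_contra hne
    obtain ⟨n, hn⟩ := ENat.ne_top_iff_exists.1 hne
    have := order_ge G hG hrel (n + 1) m
    rw [← hn] at this
    have h2 : n + 1 ≤ n := by exact_mod_cast this
    omega
  have hz : ∀ᶠ u in 𝓝 (0 : ℝ), G m u = 0 := analyticOrderAt_eq_top.1 htop
  filter_upwards [hfG m, hz.filter_mono nhdsWithin_le_nhds, self_mem_nhdsWithin] with u h1 h2 h3
  have h3' : (0 : ℝ) < u := h3
  rw [h2] at h1
  exact (mul_eq_zero.1 h1).resolve_left (pow_ne_zero _ h3'.ne')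

end Pool.Agent.MT100.H91
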